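import Pool.Agent.Y520.AS.Stm

/-!
# Project AS: test functions for every constant `C`

Adaptation of `NL.testFunctions` in `Pool/Agent/H947R3/Ned.lean`.
-/

set_option autoImplicit false

open MeasureTheory Set Filter Topology

namespace Pool.Agent.Y748.AS

open Pool.Agent.H947R3 Pool.Agent.Y520.AS

/-- **TEST** -/
theorem t_TEST : S_TEST := by
  intro f d C h hC
  set k : ℝ → ℝ := fun t => chi t * d t with hk
  have hkc : ContinuousOn k (Ioo 0 1) := chi_cont.continuousOn.mul h.dcont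
  have hk2c : ContinuousOn (fun t => k t ^ 2) (Ioo 0 1) := hkc.pow 2
  set Φ : ℝ → ℝ := fun t => ∫ s in (1 / 4 : ℝ)..t, k s with hΦ
  set Ψ : ℝ → ℝ := fun t => ∫ s in (1 / 4 : ℝ)..t, k s ^ 2 with hΨ
  set Θ : ℝ → ℝ := fun t => ∫ s in (1 / 4 : ℝ)..t, Ψ s with hΘ
  have hΦd : ∀ t ∈ Ioo (0 : ℝ) 1, HasDerivAt Φ (k t) t := fun t ht => hasDerivAt_prim hkc ht
  have hΨd : ∀ t ∈ Ioo (0 : ℝ) 1, HasDerivAt Ψ ((k t) ^ 2) t := fun t ht => hasDerivAt_prim hk2c ht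
  have hΨc : ContinuousOn Ψ (Ioo 0 1) :=
    fun t ht => (hΨd t ht).continuousAt.continuousWithinAt
  have hΘd : ∀ t ∈ Ioo (0 : ℝ) 1, HasDerivAt Θ (Ψ t) t := fun t ht => hasDerivAt_prim hΨc ht
  have hk0 : ∀ s, s ≤ 1 / 4 → k s = 0 := fun s hs => by simp [hk, chi_zero hs]
  have hΦ0 : ∀ t, t ≤ 1 / 4 → Φ t = 0 := fun t ht => prim_zero hk0 ht
  have hΨ0 : ∀ t, t ≤ 1 / 4 → Ψ t = 0 := fun t ht => prim_zero (fun s hs => by simp [hk0 s hs]) ht
  have hΘ0 : ∀ t, t ≤ 1 / 4 → Θ t = 0 := fun t ht => prim_zero hΨ0 ht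
  have hknn : ∀ t ∈ Ioo (0 : ℝ) 1, 0 ≤ k t := fun t ht => mul_nonneg (chi_nn t) (h.dnn t ht)
  have hkd : ∀ t ∈ Ioo (0 : ℝ) 1, k t ≤ d t := fun t ht => by
    have := h.dnn t ht
    have h2 := chi_le t
    simp only [hk]; nlinarith
  -- monotonicity
  have hΦm : MonotoneOn Φ (Ioo 0 1) := by
    intro s hs t ht hst
    exact mono_of_deriv hst (fun r hr => hΦd r ⟨hs.1.trans_le hr.1, hr.2.trans_lt ht.2⟩)
      (fun r hr => hknn r ⟨hs.1.trans_le hr.1, hr.2.trans_lt ht.2⟩)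
  have hΨm : MonotoneOn Ψ (Ioo 0 1) := by
    intro s hs t ht hst
    exact mono_of_deriv hst (fun r hr => hΨd r ⟨hs.1.trans_le hr.1, hr.2.trans_lt ht.2⟩)
      (fun r hr => sq_nonneg _)
  have q0 : (1 / 8 : ℝ) ∈ Ioo (0 : ℝ) 1 := by constructor <;> norm_num
  have q1 : (1 / 4 : ℝ) ∈ Ioo (0 : ℝ) 1 := by constructor <;> norm_num
  have hq : (1 / 2 : ℝ) ∈ Ioo (0 : ℝ) 1 := by constructor <;> norm_num
  have hΦnn : ∀ t ∈ Ioo (0 : ℝ) 1, 0 ≤ Φ t := by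
    intro t ht
    by_cases h1 : t ≤ 1 / 4
    · rw [hΦ0 t h1]
    · have := hΦm q0 ht (by linarith)
      rwa [hΦ0 _ (by norm_num)] at this
  have hΨnn : ∀ t ∈ Ioo (0 : ℝ) 1, 0 ≤ Ψ t := by
    intro t ht
    by_cases h1 : t ≤ 1 / 4
    · rw [hΨ0 t h1]
    · have := hΨm q0 ht (by linarith)
      rwa [hΨ0 _ (by norm_num)] at this
  have hΘm : MonotoneOn Θ (Ioo 0 1) := by
    intro s hs t ht hst
    exact mono_of_deriv hst (fun r hr => hΘd r ⟨hs.1.trans_le hr.1, hr.2.trans_lt ht.2⟩)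
      (fun r hr => hΨnn r ⟨hs.1.trans_le hr.1, hr.2.trans_lt ht.2⟩)
  have hΘnn : ∀ t ∈ Ioo (0 : ℝ) 1, 0 ≤ Θ t := by
    intro t ht
    by_cases h1 : t ≤ 1 / 4
    · rw [hΘ0 t h1]
    · have := hΘm q0 ht (by linarith)
      rwa [hΘ0 _ (by norm_num)] at this
  -- `Φ ≤ d`
  have F1 : ∀ t ∈ Ioo (0 : ℝ) 1, Φ t ≤ d t := by
    intro t ht
    have hd0 := h.dnn t ht
    by_cases h1 : t ≤ 1 / 4
    · rw [hΦ0 t h1]
      exact hd0
    · have h2 : (1 / 4 : ℝ) ≤ t := by linarith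
      have h3 := mono_of_deriv (G := fun r => (r - 1 / 4) * d t - Φ r)
        (g := fun r => d t - k r) h2
        (fun r hr => by
          have hr' : r ∈ Ioo (0 : ℝ) 1 := ⟨by linarith [hr.1], by linarith [hr.2, ht.2]⟩
          have h4 : HasDerivAt (fun r : ℝ => (r - 1 / 4) * d t) (1 * d t) r :=
            ((hasDerivAt_id r).sub_const (1 / 4)).mul_const (d t)
          rw [one_mul] at h4
          exact h4.sub (hΦd r hr'))
        (fun r hr => by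
          have hr' : r ∈ Ioo (0 : ℝ) 1 := ⟨by linarith [hr.1], by linarith [hr.2, ht.2]⟩
          have h5 := hkd r hr'
          have h6 := h.dmono hr' ht hr.2
          show 0 ≤ d t - k r
          linarith)
      have h7 : (1 / 4 - 1 / 4 : ℝ) * d t - Φ (1 / 4) ≤ (t - 1 / 4) * d t - Φ t := h3
      rw [hΦ0 (1 / 4) le_rfl] at h7
      have h8 := ht.2
      nlinarith
  -- `Θ ≤ Ψ`
  have F2 : ∀ t ∈ Ioo (0 : ℝ) 1, Θ t ≤ Ψ t := by
    intro t ht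
    have hd0 := hΨnn t ht
    by_cases h1 : t ≤ 1 / 4
    · rw [hΘ0 t h1]
      exact hd0
    · have h2 : (1 / 4 : ℝ) ≤ t := by linarith
      have h3 := mono_of_deriv (G := fun r => (r - 1 / 4) * Ψ t - Θ r)
        (g := fun r => Ψ t - Ψ r) h2
        (fun r hr => by
          have hr' : r ∈ Ioo (0 : ℝ) 1 := ⟨by linarith [hr.1], by linarith [hr.2, ht.2]⟩
          have h4 : HasDerivAt (fun r : ℝ => (r - 1 / 4) * Ψ t) (1 * Ψ t) r :=
            ((hasDerivAt_id r).sub_const (1 / 4)).mul_const (Ψ t)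
          rw [one_mul] at h4
          exact h4.sub (hΘd r hr'))
        (fun r hr => by
          have hr' : r ∈ Ioo (0 : ℝ) 1 := ⟨by linarith [hr.1], by linarith [hr.2, ht.2]⟩
          have h6 := hΨm hr' ht hr.2
          show 0 ≤ Ψ t - Ψ r
          linarith)
      have h7 : (1 / 4 - 1 / 4 : ℝ) * Ψ t - Θ (1 / 4) ≤ (t - 1 / 4) * Ψ t - Θ t := h3
      rw [hΘ0 (1 / 4) le_rfl] at h7
      have h8 := ht.2
      nlinarith
  -- P2
  have key : ∀ T ∈ Ioo (0 : ℝ) 1, ∀ t ∈ Ioo (0 : ℝ) 1, t ≤ T →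
      d T * Φ t - Ψ t ≤ d T * Φ T - Ψ T := by
    intro T hT t ht htT
    apply mono_of_deriv (G := fun r => d T * Φ r - Ψ r) (g := fun r => d T * k r - (k r) ^ 2) htT
    · intro r hr
      have hr' : r ∈ Ioo (0 : ℝ) 1 := ⟨ht.1.trans_le hr.1, hr.2.trans_lt hT.2⟩
      exact ((hΦd r hr').const_mul (d T)).sub (hΨd r hr')
    · intro r hr
      have hr' : r ∈ Ioo (0 : ℝ) 1 := ⟨ht.1.trans_le hr.1, hr.2.trans_lt hT.2⟩
      have h1 := hknn r hr'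
      have h2 := hkd r hr'
      have h3 := h.dmono hr' hT hr.2
      nlinarith
  have P2 : ∀ T ∈ Ioo (0 : ℝ) 1, Ψ T ≤ d T * Φ T := by
    intro T hT
    by_cases h1 : T ≤ 1 / 4
    · rw [hΨ0 T h1, hΦ0 T h1]; simp
    · have := key T hT (1 / 8) q0 (by linarith)
      rw [hΨ0 _ (by norm_num), hΦ0 _ (by norm_num)] at this
      linarith
  -- P3
  have hfPhi : ∀ s ∈ Ioo (0 : ℝ) 1, ∀ t ∈ Ioo (0 : ℝ) 1, s ≤ t → f s - Φ s ≤ f t - Φ t := by
    intro s hs t ht hst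
    apply mono_of_deriv (G := fun r => f r - Φ r) (g := fun r => d r - k r) hst
    · intro r hr
      have hr' : r ∈ Ioo (0 : ℝ) 1 := ⟨hs.1.trans_le hr.1, hr.2.trans_lt ht.2⟩
      exact (h.hd r hr').sub (hΦd r hr')
    · intro r hr
      have hr' : r ∈ Ioo (0 : ℝ) 1 := ⟨hs.1.trans_le hr.1, hr.2.trans_lt ht.2⟩
      linarith [hkd r hr']
  have hfPhi2 : ∀ t ∈ Ioo (0 : ℝ) 1, 1 / 2 ≤ t → f t - Φ t ≤ f (1 / 2) - Φ (1 / 2) := by
    intro t ht hst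
    have := mono_of_deriv (G := fun r => Φ r - f r) (g := fun r => k r - d r) hst
      (fun r hr => (hΦd r ⟨by linarith [hr.1], by linarith [hr.2, ht.2]⟩).sub
        (h.hd r ⟨by linarith [hr.1], by linarith [hr.2, ht.2]⟩))
      (fun r hr => by simp [hk, chi_one hr.1])
    linarith
  set c : ℝ := f (1 / 2) with hc
  have hc1 : 1 ≤ c := h.one _ hq
  have P3 : ∀ t ∈ Ioo (0 : ℝ) 1, f t - Φ t ≤ c := by
    intro t ht
    have h0 := hΦnn _ hq
    by_cases h1 : 1 / 2 ≤ t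
    · linarith [hfPhi2 t ht h1]
    · linarith [hfPhi t ht (1 / 2) hq (by linarith)]
  have P5 : ∀ M : ℝ, ∃ t ∈ Ioo (0 : ℝ) 1, M ≤ Φ t := by
    intro M
    obtain ⟨t, ht, hM⟩ := h.blow (M + c)
    exact ⟨t, ht, by linarith [P3 t ht]⟩
  -- P4
  set L : ℝ := c + 1 + 2 * C with hL
  have hL0 : 0 ≤ L := by linarith
  obtain ⟨t1, ht1, hΦt1⟩ := P5 (2 * L)
  obtain ⟨t2', ht2', hft2'⟩ := h.blow (c + 2 * d t1 + 1)
  have hdt2' : ∀ t ∈ Ioo (0 : ℝ) 1, t2' ≤ t → 2 * d t1 ≤ d t := by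
    intro t ht htt
    have h1 := h.mono ht2' ht htt
    have h2 := h.conv t ht (1 / 2) hq
    have h3 := h.dnn t ht
    have h4 := h.dnn t1 ht1
    have h5 : t - 1 / 2 ≤ 1 := by linarith [ht.2]
    nlinarith
  set t2 : ℝ := max t1 t2' with ht2
  have ht2m : t2 ∈ Ioo (0 : ℝ) 1 := by
    rw [ht2]
    exact ⟨lt_max_of_lt_left ht1.1, max_lt ht1.2 ht2'.2⟩
  have P4 : ∀ t ∈ Ioo (0 : ℝ) 1, t2 ≤ t → L * d t ≤ d t * Φ t - Ψ t := by
    intro t ht htt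
    have h1 := key t ht t1 ht1 ((le_max_left _ _).trans htt)
    have h2 := P2 t1 ht1
    have h3 := hdt2' t ht ((le_max_right _ _).trans htt)
    have h4 := h.dnn t1 ht1
    have h5 := h.dnn t ht
    have h6 : (d t - d t1) * Φ t1 ≤ d t * Φ t - Ψ t := by nlinarith
    have h7 : L * d t ≤ (d t - d t1) * Φ t1 := by
      have h8 : d t / 2 ≤ d t - d t1 := by linarith
      calc L * d t = (d t / 2) * (2 * L) := by ring
        _ ≤ (d t - d t1) * Φ t1 := by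
          apply mul_le_mul h8 hΦt1 (by linarith) (by linarith)
    linarith
  set B : ℝ := d t2 * Φ t2 with hB
  have hB0 : 0 ≤ B := mul_nonneg (h.dnn _ ht2m) (hΦnn _ ht2m)
  refine ⟨Φ, Ψ, Θ, k, L * B, mul_nonneg hL0 hB0, hΦd, hΨd, hΘd, hkc,
    fun t _ ht => ⟨hΦ0 t ht.le, hΨ0 t ht.le, hΘ0 t ht.le⟩,
    fun t ht => ⟨hΦnn t ht, hΨnn t ht, hΘnn t ht⟩, hΦm, P5, ?_⟩
  intro t ht
  have e1 := P2 t ht
  have e2 := P3 t ht
  have e4 := hΨnn t ht
  have e5 := hΦnn t ht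
  have e6 := h.dnn t ht
  -- (f - Φ) Ψ ≤ c d Φ
  have e7 : (f t - Φ t) * Ψ t ≤ c * (d t * Φ t) := mul_le_mul e2 e1 e4 (by linarith)
  have e8 : L * (d t * Φ t) ≤ Φ t * (d t * Φ t - Ψ t) + L * B := by
    by_cases h1 : t2 ≤ t
    · have := P4 t ht h1
      have h2 : Φ t * (L * d t) ≤ Φ t * (d t * Φ t - Ψ t) := mul_le_mul_of_nonneg_left this e5
      have h3 : 0 ≤ L * B := mul_nonneg hL0 hB0
      have h4 : L * (d t * Φ t) = Φ t * (L * d t) := by ring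
      linarith
    · have h2 : t ≤ t2 := by linarith
      have h3 : d t * Φ t ≤ B := mul_le_mul (h.dmono ht ht2m h2) (hΦm ht ht2m h2) e5
        (h.dnn _ ht2m)
      have h4 : 0 ≤ Φ t * (d t * Φ t - Ψ t) := mul_nonneg e5 (by linarith)
      have h5 : L * (d t * Φ t) ≤ L * B := mul_le_mul_of_nonneg_left h3 hL0
      linarith
  have e9 : Φ t ^ 2 + Θ t ≤ 2 * (d t * Φ t) := by
    have h1 : Φ t ^ 2 ≤ d t * Φ t := by
      rw [pow_two]
      exact mul_le_mul_of_nonneg_right (F1 t ht) e5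
    have h2 := F2 t ht
    linarith
  have e10 : C * (Φ t ^ 2 + Θ t) ≤ C * (2 * (d t * Φ t)) := mul_le_mul_of_nonneg_left e9 hC
  have e11 : d t * Φ t ^ 2 - f t * Ψ t =
      Φ t * (d t * Φ t - Ψ t) - (f t - Φ t) * Ψ t := by ring
  have e12 : L * (d t * Φ t) = c * (d t * Φ t) + d t * Φ t + C * (2 * (d t * Φ t)) := by
    rw [hL]; ring
  linarith

end Pool.Agent.Y748.AS
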